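import Mathlib.Tactic

/-!
# The rational SYZ conjecture, dimension by dimension

Let `X` be primitive symplectic varieties (compact Kähler, not necessarily projective) of dimension `2 n`
and `L` movable line bundles on `X` with `q_X(L) = 0` and `c_1(L) ≠ 0`. By the decomposition theorem
(Bakker, Guenancia, Lehn) `X` has a Galois quasi-étale cover, with group `G`, which is a product of a torus
and of irreducible symplectic varieties; the torus part and each `G`-orbit of the irreducible factors
contribute a reflexive `2`-form to `X`, so by uniqueness either `X` is a torus quotient, where movable line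
bundles are nef and the conjecture is known, or the cover is a power `Y^r` of an irreducible symplectic
variety, `G` is transitive on the factors and the pull-back of `L` is `N ⊠ ⋯ ⊠ N`. Conversely the symmetric
powers of `X` are primitive symplectic. In both cases `L` induces a rational Lagrangian fibration if and only
if the other bundle does: the Iitaka fibration of `N ⊠ ⋯ ⊠ N` is the product of those of `N`. We deduce
the exact relation between the rational SYZ conjectures in different dimensions, and with the holomorphic
SYZ conjecture.
-/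

set_option autoImplicit false

namespace Pool.Agent.Results.MP_e4ecdb_ag.DimensionByDimension

universe u

/-- Pairs `(X, L)`: `X` is a primitive symplectic variety and `L` a movable line bundle on `X` with
`q_X(L) = 0` and `c_1(L) ≠ 0`. -/
structure MovablePairs where
  /-- the pairs -/
  Pair : Type u
  /-- the number `n`, where `dim X = 2 n` -/
  half : Pair → ℕ
  /-- `L` induces a rational Lagrangian fibration -/
  Rational : Pair → Prop
  /-- `L` is nef -/
  Nef : Pair → Prop
  /-- `L` induces a holomorphic Lagrangian fibration -/
  Holomorphic : Pair → Prop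
  /-- `X` is an irreducible symplectic variety: the reflexive forms on every quasi-étale cover are
  generated by the pull-back of `σ` -/
  Irreducible : Pair → Prop

variable {T : MovablePairs.{u}}

/-- `(X, L)` looks like a symmetric power of `(Y, N)`, or like a quotient of `(Y, N) ^ r`. -/
structure IsPower (r : ℕ) (Q P : T.Pair) : Prop where
  /-- `r ≥ 1` -/
  one_le : 1 ≤ r
  /-- `dim X = r dim Y` -/
  half : T.half P = r * T.half Q
  /-- `L` induces a rational Lagrangian fibration if and only if `N` does -/
  rational : T.Rational P ↔ T.Rational Q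

/-- The known properties. -/
structure IsKnown (T : MovablePairs.{u}) : Prop where
  /-- `n ≥ 1` -/
  half_pos : ∀ P, 1 ≤ T.half P
  /-- Q1 holds for surfaces -/
  surface : ∀ P, T.half P = 1 → T.Rational P
  /-- the decomposition theorem: `X` is a torus quotient, where Q1 is known, or `(X, L)` is a quotient of
  `(Y, N)^r` with `Y` irreducible symplectic -/
  decomposition : ∀ P, T.Rational P ∨ ∃ (r : ℕ) (Q : T.Pair), T.Irreducible Q ∧ IsPower r Q P
  /-- symmetric powers -/
  symmetric : ∀ (Q : T.Pair) (k : ℕ), 1 ≤ k → ∃ P : T.Pair, IsPower k Q P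
  /-- if Q1 holds for all primitive symplectic varieties of dimension `2 n`, then the holomorphic SYZ
  conjecture does (known for each locally trivial deformation class) -/
  holomorphic : ∀ n : ℕ, (∀ P, T.half P = n → T.Rational P) →
    ∀ P, T.half P = n → T.Nef P → T.Holomorphic P

/-- Question Q1. -/
def Conjecture (T : MovablePairs.{u}) : Prop := ∀ P : T.Pair, T.Rational P

/-- Question Q1 for primitive symplectic varieties of dimension `2 n`. -/
def ConjectureIn (T : MovablePairs.{u}) (n : ℕ) : Prop := ∀ P : T.Pair, T.half P = n → T.Rational P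

/-- Question Q1 for irreducible symplectic varieties of dimension `2 m`. -/
def IrreducibleIn (T : MovablePairs.{u}) (m : ℕ) : Prop :=
  ∀ P : T.Pair, T.Irreducible P → T.half P = m → T.Rational P

/-- The holomorphic SYZ conjecture for primitive symplectic varieties of dimension `2 n`. -/
def HolomorphicIn (T : MovablePairs.{u}) (n : ℕ) : Prop :=
  ∀ P : T.Pair, T.half P = n → T.Nef P → T.Holomorphic P

theorem conjectureIn_iff (hT : IsKnown T) (n : ℕ) (hn : 1 ≤ n) :
    ConjectureIn T n ↔ ∀ m : ℕ, m ∣ n → IrreducibleIn T m := by
  constructor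
  · rintro h m ⟨k, rfl⟩ Q _ hm
    have hk : 1 ≤ k := by
      rcases Nat.eq_zero_or_pos k with rfl | hk
      · omega
      · exact hk
    obtain ⟨P, hP⟩ := hT.symmetric Q k hk
    rw [← hP.rational]
    exact h P (by rw [hP.half, hm, mul_comm])
  · intro h P hP
    rcases hT.decomposition P with h1 | ⟨r, Q, hQ, hr⟩
    · exact h1
    · rw [hr.rational]
      exact h (T.half Q) ⟨r, by rw [← hP, hr.half, mul_comm]⟩ Q hQ rfl

/-- **The rational SYZ conjecture, dimension by dimension.** For all data with the known properties:

* Q1 holds if and only if it holds for irreducible symplectic varieties;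
* for every `n ≥ 1`, Q1 holds in dimension `2 n` if and only if it holds for the irreducible symplectic
  varieties of dimension `2 m` for all `m ∣ n`;
* Q1 in dimension `2 n` implies Q1 and the holomorphic SYZ conjecture in dimension `2 m` for all `m ∣ n`;
* if `S` contains a multiple `n ≥ 1` of every integer `d ≥ 1`, then Q1 holds if and only if it holds in the
  dimensions `2 n`, `n ∈ S`;
* if `p` is prime, Q1 in dimension `2 p` is equivalent to Q1 for irreducible symplectic varieties of
  dimension `2 p`. -/
theorem result (T : MovablePairs.{u}) (hT : IsKnown T) :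
    (Conjecture T ↔ ∀ P : T.Pair, T.Irreducible P → T.Rational P) ∧
    (∀ n : ℕ, 1 ≤ n → (ConjectureIn T n ↔ ∀ m : ℕ, m ∣ n → IrreducibleIn T m)) ∧
    (∀ n m : ℕ, 1 ≤ n → m ∣ n → ConjectureIn T n → ConjectureIn T m ∧ HolomorphicIn T m) ∧
    (∀ S : Set ℕ, (∀ d : ℕ, 1 ≤ d → ∃ n ∈ S, 1 ≤ n ∧ d ∣ n) →
      (Conjecture T ↔ ∀ n ∈ S, ConjectureIn T n)) ∧
    (∀ p : ℕ, p.Prime → (ConjectureIn T p ↔ IrreducibleIn T p)) := by
  have hdvd : ∀ n m : ℕ, 1 ≤ n → m ∣ n → ConjectureIn T n → ConjectureIn T m := by
    intro n m hn hm h
    have hm1 : 1 ≤ m := Nat.pos_of_dvd_of_pos hm hn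
    rw [conjectureIn_iff hT m hm1]
    intro l hl
    exact (conjectureIn_iff hT n hn).1 h l (hl.trans hm)
  refine ⟨⟨fun h P _ => h P, fun h P => ?_⟩, conjectureIn_iff hT, fun n m hn hm h =>
    ⟨hdvd n m hn hm h, hT.holomorphic m (hdvd n m hn hm h)⟩, fun S hS =>
    ⟨fun h n _ P _ => h P, fun h P => ?_⟩, fun p hp => ?_⟩
  · exact (conjectureIn_iff hT (T.half P) (hT.half_pos P)).2
      (fun m _ Q hQ _ => h Q hQ) P rfl
  · obtain ⟨n, hn, hn1, hd⟩ := hS (T.half P) (hT.half_pos P)
    exact hdvd n (T.half P) hn1 hd (h n hn) P rfl
  · rw [conjectureIn_iff hT p hp.one_lt.le]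
    constructor
    · intro h
      exact h p dvd_rfl
    · intro h m hm
      rcases (Nat.dvd_prime hp).1 hm with rfl | rfl
      · intro P _ h1
        exact hT.surface P h1
      · exact h

end Pool.Agent.Results.MP_e4ecdb_ag.DimensionByDimension
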