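import Pool.Agent.Q82.SZ.H11e

set_option autoImplicit false

/-!
# The Beauville-Bogomolov-Fujiki form and the SYZ conjecture for primitive symplectic torus quotients

Let `X = V / Γ` be a primitive symplectic variety of dimension `2 n > 0` that is the quotient of a
complex torus by a finite group.  Then `H^{1,1}(X, ℝ)` is identified with one of the following spaces
of hermitian matrices: the scalar matrices, the diagonal matrices, or all hermitian matrices of size
two.  A class is nef if and only if its matrix is positive semidefinite, and it is isotropic if and only
if the determinant is zero: by the Fujiki relation the Beauville-Bogomolov-Fujiki form is the determinant,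
up to a positive factor.  So `b_2(X) = h^{1,1} + 2` is `3`, `4` or `6`.  A line bundle is pseudo-effective
(in particular, if it is movable) if and only if its matrix is positive semidefinite; and the kernel of
the Chern form of each line bundle with `q_X(L) = 0` and `c_1(L) ≠ 0` is the fibre space of a
holomorphic Lagrangian fibration.  If `b_2(X) = 3` there are no Lagrangian fibrations, if `b_2(X) = 4`
there are at most two.

The proof: let `h` be a positive definite form on `V` invariant under the finite group `G` of the linear
parts of `Γ`.  Each invariant subspace of `V` is `0`, `V` or Lagrangian.  If not all invariant forms are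
multiples of `h`, then `V` is the orthogonal sum of two Lagrangian invariant subspaces `K` and `K'`,
which are irreducible, and Schur's lemma computes the invariant forms: `K` and `K'` are isomorphic as
representations of `G` or not.

`IsPrimitiveSymplectic`, `LineBundle` are defined in `Pool.Agent.W594.SYZ.Defs2`; `IsChernForm`,
`IsNefForm`, `IsDegenerateForm`, `IsLagrangianFibration` in `Pool.Agent.W594.SYZ.TQDefs`;
`IsPseudoEffective` in `Pool.Agent.TH128.SYZ.PsefDefs`; `IsFibreSpace` in
`Pool.Agent.Q82.SZ.FibDefs`; `H11`, `det2` and `IsPsd2` in `Pool.Agent.Q82.SZ.H11Defs`; the parts of the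
statement in `Pool.Agent.Q82.SZ.H11Stmt`.
-/

namespace Pool.Agent.Results.MP_e4ecdb_ag.SecondBettiNumber

open Pool.Agent.W594.SYZ2 Pool.Agent.TH128.SYZ Pool.Agent.Q82.SZ

/-- Let `X = V / Γ` be a primitive symplectic torus quotient of positive dimension. There is a linear
map `Φ` from `H^{1,1}(X, ℝ)` to the hermitian matrices of size two (given as the restriction of a linear
map on all functions of two variables), with the following properties.

* It is injective; a class is nef if and only if its matrix is positive semidefinite, and degenerate if
  and only if the determinant of its matrix is zero.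
* The image consists of the scalar matrices, the diagonal matrices or all hermitian matrices, and
  `h^{1,1}(X)` is `1`, `2` or `4`.
* A line bundle is pseudo-effective if and only if the matrix of its class is positive semidefinite.
* If the determinant of the matrix of the class of a line bundle is zero and the matrix is not zero,
  then the kernel of the Chern form is the fibre space of a Lagrangian fibration.

If `h^{1,1}(X) = 1` then `X` has no Lagrangian fibration, and if `h^{1,1}(X) = 2` then it has at most
two. -/
theorem result {V : Type*} [NormedAddCommGroup V] [NormedSpace ℂ V] [FiniteDimensional ℂ V]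
    (Γ : Subgroup (V ≃ᵃ[ℂ] V)) (hΓ : IsPrimitiveSymplectic Γ) (hV : ∃ v : V, v ≠ 0) :
    (∀ (L : LineBundle Γ) (H : V → V → ℂ), IsChernForm L H → H ∈ H11 Γ) ∧
    (∃ Φ : (V → V → ℂ) →ₗ[ℝ] (ℝ × ℝ × ℂ),
      ComputesForm Γ Φ ∧ HasImage Γ Φ ∧ ComputesPsef Γ Φ ∧ FibrationCriterion Γ Φ) ∧
    (h11 Γ = 1 → ∀ K, ¬ IsFibreSpace Γ K) ∧
    (h11 Γ = 2 → ∀ K₁ K₂ K₃, IsFibreSpace Γ K₁ → IsFibreSpace Γ K₂ → IsFibreSpace Γ K₃ →
      K₁ = K₂ ∨ K₁ = K₃ ∨ K₂ = K₃) :=
  second_betti Γ hΓ hV

end Pool.Agent.Results.MP_e4ecdb_ag.SecondBettiNumber
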